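import Pool.Agent.H82.HEI

/-!
# A huge cardinal gives a model of exact structural reflection

If `κ` is a huge cardinal then there are a transitive set model `N` of ZFC and a cardinal `λ > κ`
of `N` such that `N` satisfies `ESR_C(κ, λ)` for every class `C` of structures of the same type
that is definable in `N` by a formula without parameters, of any complexity. In particular
`Σ_n-ESR(κ, λ)` holds in `N` for all `n`.

The proof: let `j : V → M` witness that `κ` is huge, and let `λ = j(κ)`, `N = j(j(V_κ))` and
`N' = j(N)`. Then `V_κ ≺ V_λ ≺ N ≺ N'`. If `B` is a structure of rank `λ` in the class, then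
`N'` contains the restriction of `j` to the domain of `B`, which is an elementary embedding of `B`
into `j(B)`. Hence `N'` knows that some structure in the class, of rank `λ = j(κ)`, embeds
elementarily into `j(B)`. By the elementarity of `j`, the model `N` knows that some structure in
the class, of rank `κ`, embeds elementarily into `B`.
-/

set_option autoImplicit false

namespace Pool.Agent.Results.MP_83aea7_lc.HugeGivesESR

open Pool.Agent.W868 Pool.Agent.H82.HE

/-- If `κ` is huge, then there are a transitive set model `N` of ZFC and a cardinal `λ > κ` of `N`
such that `ESR_C(κ, λ)` holds in `N` for all classes `C` of structures of the same type that are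
definable in `N` without parameters. -/
theorem result (κ : ZFSet.{0}) (hκ : IsHuge κ) :
    ∃ N lam : ZFSet.{0}, IsZFC {x | x ∈ N} ∧ κ ∈ lam ∧ lam ∈ N ∧
      IsCardIn N κ ∧ IsCardIn N lam ∧
      ∀ (φ : Fml Empty 1) (τ : ZFSet.{0}), SameType N φ τ → ESR N φ τ κ lam :=
  main κ hκ

end Pool.Agent.Results.MP_83aea7_lc.HugeGivesESR
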